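import Mathlib

/-! PROJECT TATE (MP_640417_ag), packages GAL and PATHS: definitions and interface statements.
No homotopy and no covering spaces: everything is a continuous lift over a segment. -/

namespace Pool.Agent.A640.TG

open Set Metric Filter Topology

/-! ## F: fields -/

/-- `s` is algebraically independent over the rationals. -/
def Gen {p : ℕ} (s : Fin p → ℂ) : Prop := AlgebraicIndependent ℚ s

/-- the field generated by the coordinates of `s` -/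
noncomputable def Kf {p : ℕ} (s : Fin p → ℂ) : Subfield ℂ := Subfield.closure (Set.range s)

/-- its algebraic closure in `ℂ` -/
noncomputable def Af {p : ℕ} (s : Fin p → ℂ) : Subfield ℂ :=
  (algebraicClosure (Kf s) ℂ).toSubfield

/-- F2 -/
def StmtOrb : Prop := ∀ (K : Subfield ℂ), (K : Set ℂ).Countable → ∀ a : ℂ,
  {x : ℂ | ∃ σ : ℂ ≃+* ℂ, (∀ k ∈ K, σ k = k) ∧ σ a = x}.Countable → IsAlgebraic K a

/-- F3 -/
def StmtFix : Prop := ∀ (A : Subfield ℂ), (A : Set ℂ).Countable →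
  (∀ x : ℂ, IsAlgebraic A x → x ∈ A) → ∀ X : Finset ℂ, ∃ Y : Finset ℂ, (∀ y ∈ Y, y ∈ A) ∧
  ∀ σ : A ≃+* A, (∀ y : A, (y : ℂ) ∈ Y → σ y = y) →
    ∃ τ : ℂ ≃+* ℂ, (∀ a : A, τ a = σ a) ∧ ∀ x ∈ X, τ x = x

/-- facts on `Af` -/
def StmtAf : Prop := ∀ (p : ℕ) (s : Fin p → ℂ), (Af s : Set ℂ).Countable ∧ (∀ j, s j ∈ Af s) ∧
  (∀ x : ℂ, IsAlgebraic (Af s) x → x ∈ Af s) ∧ (∀ x : ℂ, IsAlgebraic ℚ x → x ∈ Af s) ∧
  (∀ x : ℂ, x ∈ Af s ↔ IsAlgebraic (Kf s) x)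

/-! ## C: continuation of algebraic functions -/

/-- specialisation of the coefficients at `S` -/
noncomputable def PS {p : ℕ} (P : Polynomial (MvPolynomial (Fin p) ℚ)) (S : Fin p → ℂ) :
    Polynomial ℂ :=
  P.map (MvPolynomial.aeval S : MvPolynomial (Fin p) ℚ →ₐ[ℚ] ℂ).toRingHom

/-- `P` is good at `S`: full degree and separable -/
def GoodAt {p : ℕ} (P : Polynomial (MvPolynomial (Fin p) ℚ)) (S : Fin p → ℂ) : Prop :=
  (PS P S).natDegree = P.natDegree ∧ (PS P S).Separable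

/-- `P` is a minimal polynomial of `a` over the field of `s`, denominators cleared -/
structure IsPol {p : ℕ} (s : Fin p → ℂ) (a : ℂ) (P : Polynomial (MvPolynomial (Fin p) ℚ)) :
    Prop where
  root : (PS P s).eval a = 0
  good : ∀ S, Gen S → GoodAt P S
  min : ∀ Q : Polynomial (MvPolynomial (Fin p) ℚ), (PS Q s).eval a = 0 →
    ∀ S, Gen S → ∀ x, (PS P S).eval x = 0 → (PS Q S).eval x = 0

def StmtPol : Prop := ∀ (p : ℕ) (s : Fin p → ℂ), Gen s → ∀ a ∈ Af s, ∃ P, IsPol s a P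

def StmtPrim : Prop := ∀ (p : ℕ) (s : Fin p → ℂ), Gen s → ∀ a ∈ Af s, ∀ b ∈ Af s,
  ∃ c ∈ Af s, ∃ (D : MvPolynomial (Fin p) ℚ) (N M : Polynomial (MvPolynomial (Fin p) ℚ)),
    D ≠ 0 ∧ MvPolynomial.aeval s D * a = (PS N s).eval c ∧
      MvPolynomial.aeval s D * b = (PS M s).eval c

/-- the roots of a polynomial which is good at `s0` are holomorphic functions near `s0` -/
def StmtHol : Prop := ∀ (p : ℕ) (P : Polynomial (MvPolynomial (Fin p) ℚ)) (s0 : Fin p → ℂ),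
  GoodAt P s0 → ∃ r > 0, (∀ S ∈ ball s0 r, GoodAt P S) ∧ ∃ f : ℂ → (Fin p → ℂ) → ℂ,
    (∀ w, (PS P s0).eval w = 0 → f w s0 = w ∧ DifferentiableOn ℂ (f w) (ball s0 r) ∧
      ∀ S ∈ ball s0 r, (PS P S).eval (f w S) = 0) ∧
    (∀ S ∈ ball s0 r, ∀ x, (PS P S).eval x = 0 → ∃ w, (PS P s0).eval w = 0 ∧ f w S = x) ∧
    (∀ S ∈ ball s0 r, ∀ w w', (PS P s0).eval w = 0 → (PS P s0).eval w' = 0 →
      f w S = f w' S → w = w')

/-- two continuous root functions on a preconnected set which agree at one point are equal -/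
def StmtRootUniq : Prop := ∀ (X : Type) [TopologicalSpace X] (p : ℕ)
  (P : Polynomial (MvPolynomial (Fin p) ℚ)) (C : Set X) (γ : X → Fin p → ℂ) (f g : X → ℂ),
  IsPreconnected C → ContinuousOn γ C → ContinuousOn f C → ContinuousOn g C →
  (∀ x ∈ C, GoodAt P (γ x)) → (∀ x ∈ C, (PS P (γ x)).eval (f x) = 0) →
  (∀ x ∈ C, (PS P (γ x)).eval (g x) = 0) → ∀ x0 ∈ C, f x0 = g x0 → ∀ x ∈ C, f x = g x

/-- root lifting along a path -/
def StmtRootLift : Prop := ∀ (p : ℕ) (P : Polynomial (MvPolynomial (Fin p) ℚ))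
  (γ : ℝ → Fin p → ℂ), ContinuousOn γ (Icc 0 1) → (∀ t ∈ Icc (0:ℝ) 1, GoodAt P (γ t)) →
  ∀ w0, (PS P (γ 0)).eval w0 = 0 → ∃ w : ℝ → ℂ, ContinuousOn w (Icc 0 1) ∧ w 0 = w0 ∧
    ∀ t ∈ Icc (0:ℝ) 1, (PS P (γ t)).eval (w t) = 0

/-- `φ` continues the algebraic functions of `s` along the path `γ` of generic points -/
structure Cont {p : ℕ} (s : Fin p → ℂ) (γ : ℝ → Fin p → ℂ) (φ : ℝ → Af s →+* ℂ) : Prop where
  coord : ∀ t ∈ Icc (0:ℝ) 1, ∀ (j : Fin p) (x : Af s), (x : ℂ) = s j → φ t x = γ t j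
  cont : ∀ a : Af s, ContinuousOn (fun t => φ t a) (Icc 0 1)
  root : ∀ (a : Af s) (P : Polynomial (MvPolynomial (Fin p) ℚ)), (PS P s).eval (a : ℂ) = 0 →
    ∀ t ∈ Icc (0:ℝ) 1, (PS P (γ t)).eval (φ t a) = 0
  loc : ∀ (a : Af s) (P : Polynomial (MvPolynomial (Fin p) ℚ)), IsPol s a P →
    ∀ t ∈ Icc (0:ℝ) 1, ∃ r > 0, (∀ S ∈ ball (γ t) r, GoodAt P S) ∧ ∃ f : (Fin p → ℂ) → ℂ,
      DifferentiableOn ℂ f (ball (γ t) r) ∧ (∀ S ∈ ball (γ t) r, (PS P S).eval (f S) = 0) ∧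
      ∀ t' ∈ Icc (0:ℝ) 1, γ t' ∈ ball (γ t) r → (∀ u ∈ uIcc t t', γ u ∈ ball (γ t) r) →
        φ t' a = f (γ t')

/-- MAIN THEOREM of C -/
def StmtCont : Prop := ∀ (p : ℕ) (s : Fin p → ℂ) (γ : ℝ → Fin p → ℂ) (φ0 : Af s →+* ℂ),
  Gen s → ContinuousOn γ (Icc 0 1) → (∀ t ∈ Icc (0:ℝ) 1, Gen (γ t)) →
  (∀ (j : Fin p) (x : Af s), (x : ℂ) = s j → φ0 x = γ 0 j) →
  ∃ φ : ℝ → Af s →+* ℂ, φ 0 = φ0 ∧ Cont s γ φ

/-- an embedding of `Af s` over the same point is an automorphism and fixes the algebraic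
numbers if it is obtained by continuation -/
def StmtAut : Prop := ∀ (p : ℕ) (s : Fin p → ℂ) (φ : Af s →+* ℂ),
  (∀ (j : Fin p) (x : Af s), (x : ℂ) = s j → φ x = s j) → ∃ σ : Af s ≃+* Af s, ∀ a, (σ a : ℂ) = φ a

def StmtContAlg : Prop := ∀ (p : ℕ) (s : Fin p → ℂ) (γ : ℝ → Fin p → ℂ) (φ : ℝ → Af s →+* ℂ),
  Cont s γ φ → ∀ a : Af s, IsAlgebraic ℚ (a : ℂ) → ∀ t ∈ Icc (0:ℝ) 1, φ t a = φ 0 a

/-- the bad points of a line are countable -/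
def StmtBad : Prop := ∀ (p : ℕ) (s v : Fin p → ℂ), Gen s →
  {z : ℂ | ¬ Gen (fun j => s j + z * v j)}.Countable

def StmtGenMeagre : Prop := ∀ p : ℕ, IsMeagre {s : Fin p → ℂ | ¬ Gen s}

/-! ## P: local systems and transport along polygonal paths -/

section LS
variable {X W : Type*} [TopologicalSpace X] [TopologicalSpace W]

/-- `R` is a local system of countable sets in `W` over the open set `U` -/
structure LS (U : Set X) (R : X → Set W) : Prop where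
  isOpen : IsOpen U
  ctble : ∀ z ∈ U, (R z).Countable
  triv : ∀ z0 ∈ U, ∃ N : Set X, IsOpen N ∧ z0 ∈ N ∧ N ⊆ U ∧ ∃ τ τ' : X → W → W,
    (∀ w ∈ R z0, τ z0 w = w) ∧
    (∀ z ∈ N, MapsTo (τ z) (R z0) (R z) ∧ MapsTo (τ' z) (R z) (R z0) ∧
      (∀ w ∈ R z0, τ' z (τ z w) = w) ∧ (∀ w ∈ R z, τ z (τ' z w) = w)) ∧
    (∀ w ∈ R z0, ContinuousOn (fun z => τ z w) N) ∧
    ContinuousOn (fun q : X × W => τ' q.1 q.2) {q | q.1 ∈ N ∧ q.2 ∈ R q.1}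

end LS

/-- pull back of a local system -/
def StmtPull : Prop := ∀ (X Y W : Type) [TopologicalSpace X] [TopologicalSpace Y]
  [TopologicalSpace W] (U : Set X) (R : X → Set W) (h : Y → X), LS U R → Continuous h →
  LS (h ⁻¹' U) (fun y => R (h y))

/-- uniqueness of lifts along an interval -/
def StmtUniq : Prop := ∀ (X W : Type) [TopologicalSpace X] [MetricSpace W] (U : Set X)
  (R : X → Set W), LS U R → ∀ (γ : ℝ → X) (g g' : ℝ → W) (a b : ℝ), ContinuousOn γ (Icc a b) →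
  (∀ t ∈ Icc a b, γ t ∈ U) → ContinuousOn g (Icc a b) → ContinuousOn g' (Icc a b) →
  (∀ t ∈ Icc a b, g t ∈ R (γ t)) → (∀ t ∈ Icc a b, g' t ∈ R (γ t)) →
  ∀ t0 ∈ Icc a b, g t0 = g' t0 → ∀ t ∈ Icc a b, g t = g' t

/-- sections over a neighbourhood of a segment -/
def StmtTube : Prop := ∀ (E W : Type) [NormedAddCommGroup E] [NormedSpace ℝ E] [MetricSpace W]
  (U : Set E) (R : E → Set W), LS U R → ∀ (a b : E), segment ℝ a b ⊆ U → ∀ w ∈ R a,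
  ∃ ρ > 0, thickening ρ (segment ℝ a b) ⊆ U ∧ ∃ σ : E → W, σ a = w ∧
    ContinuousOn σ (thickening ρ (segment ℝ a b)) ∧
    ∀ z ∈ thickening ρ (segment ℝ a b), σ z ∈ R z

/-- lifting of paths -/
def StmtLiftPath : Prop := ∀ (X W : Type) [TopologicalSpace X] [MetricSpace W] (U : Set X)
  (R : X → Set W), LS U R → ∀ (γ : ℝ → X), ContinuousOn γ (Icc 0 1) →
  (∀ t ∈ Icc (0:ℝ) 1, γ t ∈ U) → ∀ w ∈ R (γ 0), ∃ g : ℝ → W, g 0 = w ∧
    ContinuousOn g (Icc 0 1) ∧ ∀ t ∈ Icc (0:ℝ) 1, g t ∈ R (γ t)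

section Paths
variable {W : Type} [MetricSpace W]

/-- `w'` at `b` is the transport of `w` at `a` along the segment from `a` to `b` -/
def Lift (R : ℂ → Set W) (a b : ℂ) (w w' : W) : Prop :=
  ∃ g : ℝ → W, ContinuousOn g (Icc 0 1) ∧ g 0 = w ∧ g 1 = w' ∧
    ∀ t ∈ Icc (0:ℝ) 1, g t ∈ R (AffineMap.lineMap a b t)

/-- one segment of a polygonal path in `U` -/
def Step (U : Set ℂ) (R : ℂ → Set W) (x y : ℂ × W) : Prop :=
  segment ℝ x.1 y.1 ⊆ U ∧ Lift R x.1 y.1 x.2 y.2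

/-- transport along some polygonal path in `U` -/
def Reach (U : Set ℂ) (R : ℂ → Set W) : ℂ × W → ℂ × W → Prop :=
  Relation.ReflTransGen (Step U R)

end Paths

/-- elementary properties of transport along segments -/
def StmtLifts : Prop := ∀ (W : Type) [MetricSpace W] (U : Set ℂ) (R : ℂ → Set W), LS U R →
  (∀ a b, segment ℝ a b ⊆ U → ∀ w ∈ R a, ∃ w' ∈ R b, Lift R a b w w') ∧
  (∀ a b, segment ℝ a b ⊆ U → ∀ w w1 w2, Lift R a b w w1 → Lift R a b w w2 → w1 = w2) ∧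
  (∀ a b w w', Lift R a b w w' → Lift R b a w' w) ∧
  (∀ a w, w ∈ R a → Lift R a a w w) ∧
  (∀ x y, Reach U R x y → Reach U R y x) ∧
  (∀ a b, segment ℝ a b ⊆ U → ∀ w w', Lift R a b w w' → ∃ ε > 0, ball a ε ⊆ U ∧ ball b ε ⊆ U ∧
    ∀ a' ∈ ball a ε, ∀ b' ∈ ball b ε, ∀ w1 w1', Lift R a a' w w1 → Lift R b b' w' w1' →
      segment ℝ a' b' ⊆ U ∧ Lift R a' b' w1 w1')

/-- polygonal loops can be moved off a countable set -/
def StmtMove : Prop := ∀ (W : Type) [MetricSpace W] (U : Set ℂ) (R : ℂ → Set W), LS U R →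
  ∀ (Bad : Set ℂ), Bad.Countable → ∀ z0 ∈ U, z0 ∉ Bad → ∀ w ∈ R z0, ∀ w',
    Reach U R (z0, w) (z0, w') → Reach (U \ Bad) R (z0, w) (z0, w')

/-! ### frames of a flat family of lattices -/

section Frames
variable {V : Type} [NormedAddCommGroup V] [NormedSpace ℝ V]

/-- `L` is a flat family of countable spanning subsets of `V` over `U` -/
structure Flat (U : Set ℂ) (L : ℂ → Set V) : Prop where
  isOpen : IsOpen U
  ctble : ∀ z ∈ U, (L z).Countable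
  span : ∀ z ∈ U, Submodule.span ℝ (L z) = ⊤
  triv : ∀ z0 ∈ U, ∃ r > 0, ball z0 r ⊆ U ∧ ∃ τ : ℂ → (V ≃L[ℝ] V),
    τ z0 = ContinuousLinearEquiv.refl ℝ V ∧ (∀ z ∈ ball z0 r, τ z '' L z0 = L z) ∧
    ∀ v, ContinuousOn (fun z => τ z v) (ball z0 r)

/-- the frames at `z`: linear automorphisms which map `L z0` onto `L z` -/
def Fr (L : ℂ → Set V) (z0 z : ℂ) : Set (V →L[ℝ] V) :=
  {T | ∃ T' : V ≃L[ℝ] V, (T' : V →L[ℝ] V) = T ∧ T' '' L z0 = L z}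

/-- the transports from `z0` to `z` along polygonal paths in `U` -/
def Tr (U : Set ℂ) (L : ℂ → Set V) (z0 z : ℂ) : Set (V ≃L[ℝ] V) :=
  {T | Reach U (Fr L z0) (z0, ContinuousLinearMap.id ℝ V) (z, (T : V →L[ℝ] V))}

end Frames

def StmtFrames : Prop := ∀ (V : Type) [NormedAddCommGroup V] [NormedSpace ℝ V]
  [FiniteDimensional ℝ V] (U : Set ℂ) (L : ℂ → Set V), Flat U L → ∀ z0 ∈ U,
  LS U (Fr L z0) ∧
  -- monodromy group
  (ContinuousLinearEquiv.refl ℝ V ∈ Tr U L z0 z0) ∧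
  (∀ z, ∀ T ∈ Tr U L z0 z, T '' L z0 = L z ∧ z ∈ U) ∧
  (∀ z, ∀ S ∈ Tr U L z0 z0, ∀ T ∈ Tr U L z0 z, S.trans T ∈ Tr U L z0 z) ∧
  (∀ S ∈ Tr U L z0 z0, S.symm ∈ Tr U L z0 z0) ∧
  (∀ z, ∀ T ∈ Tr U L z0 z, ∀ T' ∈ Tr U L z0 z, ∃ S ∈ Tr U L z0 z0, T' = S.trans T) ∧
  -- local triviality of the transports
  (∀ z1 ∈ U, ∀ r > 0, ball z1 r ⊆ U → ∀ τ : ℂ → (V ≃L[ℝ] V),
    τ z1 = ContinuousLinearEquiv.refl ℝ V → (∀ z ∈ ball z1 r, τ z '' L z1 = L z) →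
    (∀ v, ContinuousOn (fun z => τ z v) (ball z1 r)) →
    ∀ z ∈ ball z1 r, Tr U L z0 z = (fun T => T.trans (τ z)) '' Tr U L z0 z1) ∧
  -- loops off a countable set
  (∀ Bad : Set ℂ, Bad.Countable → z0 ∉ Bad → Tr (U \ Bad) L z0 z0 = Tr U L z0 z0)

/-- finite orbits give finite flat families; `act` is any action -/
def StmtOrbit : Prop := ∀ (V X : Type) [NormedAddCommGroup V] [NormedSpace ℝ V]
  [FiniteDimensional ℝ V] (U : Set ℂ) (L : ℂ → Set V), Flat U L → ∀ z0 ∈ U,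
  ∀ act : (V ≃L[ℝ] V) → X → X, (∀ c, act (ContinuousLinearEquiv.refl ℝ V) c = c) →
  (∀ S T c, act (S.trans T) c = act T (act S c)) → ∀ c : X,
  ((fun T => act T c) '' Tr U L z0 z0).Finite →
  ∃ O : ℂ → Set X, c ∈ O z0 ∧ (∀ z, O z = (fun T => act T c) '' Tr U L z0 z) ∧
    (∀ z ∈ U, (O z).Finite) ∧
    ∀ z1 ∈ U, ∀ r > 0, ball z1 r ⊆ U → ∀ τ : ℂ → (V ≃L[ℝ] V),
    τ z1 = ContinuousLinearEquiv.refl ℝ V → (∀ z ∈ ball z1 r, τ z '' L z1 = L z) →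
    (∀ v, ContinuousOn (fun z => τ z v) (ball z1 r)) →
    ∀ z ∈ ball z1 r, O z = act (τ z) '' O z1

/-! ## the Galois side of a loop -/

/-- Induction along a polygonal path: a property of (point, frame, embedding) which is stable
under steps off `Bad` is obtained at the end of every loop, for an automorphism of `Af s`. -/
def StmtGal : Prop := ∀ (p : ℕ) (s v : Fin p → ℂ), Gen s → ∀ (W : Type) [MetricSpace W]
  (U : Set ℂ) (R : ℂ → Set W), LS U R → (0:ℂ) ∈ U → ∀ Bad : Set ℂ, Bad.Countable → (0:ℂ) ∉ Bad →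
  (∀ z ∈ U, z ∉ Bad → Gen (fun j => s j + z * v j)) → ∀ w0 ∈ R 0,
  ∀ Cp : ℂ → W → (Af s →+* ℂ) → Prop, Cp 0 w0 (Af s).subtype →
  (∀ a b w w', segment ℝ a b ⊆ U \ Bad → Lift R a b w w' → ∀ φ : ℝ → Af s →+* ℂ,
    Cont s (fun t j => s j + (AffineMap.lineMap a b t : ℂ) * v j) φ → Cp a w (φ 0) →
      Cp b w' (φ 1)) →
  ∀ w, Reach U R (0, w0) (0, w) → ∃ σ : Af s ≃+* Af s,
    (∀ (j : Fin p) (x : Af s), (x : ℂ) = s j → σ x = x) ∧
    (∀ x : Af s, IsAlgebraic ℚ (x : ℂ) → σ x = x) ∧ Cp 0 w ((Af s).subtype.comp σ.toRingHom)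

/-! ## B: Baire -/

def StmtB1 : Prop := ∀ (p : ℕ) (ι H : Type) [Countable ι] [NormedAddCommGroup H]
  [NormedSpace ℂ H] [CompleteSpace H] (c : ι → Fin p → ℂ) (r : ι → ℝ) (h : ι → (Fin p → ℂ) → H),
  (∀ i, DifferentiableOn ℂ (h i) (ball (c i) (r i))) →
  ∃ M : Set (Fin p → ℂ), IsMeagre M ∧ ∀ s ∉ M, ∀ i, s ∈ ball (c i) (r i) → h i s = 0 →
    ∀ S ∈ ball (c i) (r i), h i S = 0

/-- identity theorem on balls of `ℂ^p` -/
def StmtIdent : Prop := ∀ (p : ℕ) (H : Type) [NormedAddCommGroup H] [NormedSpace ℂ H] [CompleteSpace H]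
  (c : Fin p → ℂ) (r : ℝ) (h : (Fin p → ℂ) → H), DifferentiableOn ℂ h (ball c r) →
  ∀ s ∈ ball c r, h =ᶠ[𝓝 s] 0 → ∀ S ∈ ball c r, h S = 0

/-- a countable family of algebraic functions on balls which contains all germs -/
def StmtB2 : Prop := ∀ p : ℕ, ∃ F : Set ((Fin p → ℂ) × ℝ × ((Fin p → ℂ) → ℂ)), F.Countable ∧
  (∀ q ∈ F, 0 < q.2.1 ∧ DifferentiableOn ℂ q.2.2 (ball q.1 q.2.1)) ∧
  ∀ s : Fin p → ℂ, Gen s → ∀ a ∈ Af s, ∀ P, IsPol s a P → ∀ ε > 0,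
    ∃ q ∈ F, s ∈ ball q.1 q.2.1 ∧ ball q.1 q.2.1 ⊆ ball s ε ∧ q.2.2 s = a ∧
      ∀ S ∈ ball q.1 q.2.1, GoodAt P S ∧ (PS P S).eval (q.2.2 S) = 0

end Pool.Agent.A640.TG
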